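import Pool.Agent.W580.SH.StmA

/-! Project SH (helper580), parts AB3 and ABE. -/

set_option autoImplicit false

namespace Pool.Agent.W557.SH

open Pool.Agent.W580.SH Finset

theorem par {R : Type} {S : Set (R → ℝ)} {t : R → ℝ} {f : Fin 2 → (R → ℝ)}
    {v : Fin 3 → (R → ℝ)} {κ : Fin 5 → R} (h : Ctx S t f v κ) (w : R → ℝ) (X : Fin 2 → ℤ)
    (Y : Fin 3 → ℤ) (hw : Crd f v κ w (fun a => (X a : ℝ)) (fun k => (Y k : ℝ))) (a : Fin 5)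
    (ha : t (κ a) = 1 / 2) (m : ℤ) (hm : 2 * w (κ a) = m) :
    (∃ n, m = 2 * n + (X 0 + X 1)) ∨ (∃ n, m = 2 * n + (Y 0 + Y 1 + Y 2)) := by
  have h1 : ∀ (b : Fin 2) (k : Fin 3), ∃ n : ℤ, f b (κ a) + v k (κ a) = 1 / 2 + n := by
    intro b k
    obtain ⟨n, hn⟩ := h.co.2 _ (h.qs b k 1 1 (Or.inl rfl) (Or.inl rfl)) (κ a)
    refine ⟨n, ?_⟩
    simp only [Pi.add_apply, Pi.smul_apply, smul_eq_mul, one_mul, ha] at hn
    exact hn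
  have h2 : ∀ (b : Fin 2) (k : Fin 3), ∃ n : ℤ, f b (κ a) - v k (κ a) = 1 / 2 + n := by
    intro b k
    obtain ⟨n, hn⟩ := h.co.2 _ (h.qs b k 1 (-1) (Or.inl rfl) (Or.inr rfl)) (κ a)
    refine ⟨n, ?_⟩
    simp only [Pi.add_apply, Pi.smul_apply, smul_eq_mul, one_mul, ha, neg_mul] at hn
    linarith
  choose n1 hn1 using h1
  choose n2 hn2 using h2
  have hF : ∀ b, 2 * f b (κ a) = ((1 + n1 b 0 + n2 b 0 : ℤ) : ℝ) := by
    intro b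
    have := hn1 b 0
    have := hn2 b 0
    push_cast
    linarith
  have hV : ∀ k, 2 * v k (κ a) = ((n1 0 k - n2 0 k : ℤ) : ℝ) := by
    intro k
    have := hn1 0 k
    have := hn2 0 k
    push_cast
    linarith
  have e0 : ∀ b k, (1 + n1 b 0 + n2 b 0) + (n1 0 k - n2 0 k) = 1 + 2 * n1 b k := by
    intro b k
    have h3 := hF b
    have h4 := hV k
    have h5 := hn1 b k
    have : (((1 + n1 b 0 + n2 b 0) + (n1 0 k - n2 0 k) : ℤ) : ℝ) = ((1 + 2 * n1 b k : ℤ) : ℝ) := by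
      rw [Int.cast_add, ← h3, ← h4]
      push_cast
      linarith
    exact_mod_cast this
  have e1 : m = X 0 * (1 + n1 0 0 + n2 0 0) + X 1 * (1 + n1 1 0 + n2 1 0) +
      Y 0 * (n1 0 0 - n2 0 0) + Y 1 * (n1 0 1 - n2 0 1) + Y 2 * (n1 0 2 - n2 0 2) := by
    have h3 := hw a
    simp only [Fin.sum_univ_two, Fin.sum_univ_three] at h3
    have h4 : (m : ℝ) = ((X 0 * (1 + n1 0 0 + n2 0 0) + X 1 * (1 + n1 1 0 + n2 1 0) +
      Y 0 * (n1 0 0 - n2 0 0) + Y 1 * (n1 0 1 - n2 0 1) + Y 2 * (n1 0 2 - n2 0 2) : ℤ) : ℝ) := by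
      rw [Int.cast_add, Int.cast_add, Int.cast_add, Int.cast_add, Int.cast_mul, Int.cast_mul,
        Int.cast_mul, Int.cast_mul, Int.cast_mul, ← hF 0, ← hF 1, ← hV 0, ← hV 1, ← hV 2, ← hm, h3]
      ring
    exact_mod_cast h4
  have a00 := e0 0 0
  have a01 := e0 0 1
  have a02 := e0 0 2
  have a10 := e0 1 0
  generalize (1 + n1 0 0 + n2 0 0) = F0 at *
  generalize (1 + n1 1 0 + n2 1 0) = F1 at *
  generalize (n1 0 0 - n2 0 0) = V0 at *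
  generalize (n1 0 1 - n2 0 1) = V1 at *
  generalize (n1 0 2 - n2 0 2) = V2 at *
  obtain ⟨g, hg⟩ : ∃ g, F0 = 2 * g ∨ F0 = 2 * g + 1 := ⟨F0 / 2, by omega⟩
  rcases hg with hg | hg
  · right
    have b0 : V0 = 1 + 2 * (n1 0 0 - g) := by omega
    have b1 : V1 = 1 + 2 * (n1 0 1 - g) := by omega
    have b2 : V2 = 1 + 2 * (n1 0 2 - g) := by omega
    have b3 : F1 = 2 * (g + n1 1 0 - n1 0 0) := by omega
    rw [b0, b1, b2, b3, hg] at e1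
    exact ⟨X 0 * g + X 1 * (g + n1 1 0 - n1 0 0) + Y 0 * (n1 0 0 - g) + Y 1 * (n1 0 1 - g) +
      Y 2 * (n1 0 2 - g), by rw [e1]; ring⟩
  · left
    have b0 : V0 = 2 * (n1 0 0 - g) := by omega
    have b1 : V1 = 2 * (n1 0 1 - g) := by omega
    have b2 : V2 = 2 * (n1 0 2 - g) := by omega
    have b3 : F1 = 1 + 2 * (g + n1 1 0 - n1 0 0) := by omega
    rw [b0, b1, b2, b3, hg] at e1
    exact ⟨X 0 * g + X 1 * (g + n1 1 0 - n1 0 0) + Y 0 * (n1 0 0 - g) + Y 1 * (n1 0 1 - g) +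
      Y 2 * (n1 0 2 - g), by rw [e1]; ring⟩

/-- integer coordinates -/
theorem coord (hC : S_CRD) (hA : S_AB2A) (hB : S_AB2B) {R : Type} {S : Set (R → ℝ)} {t : R → ℝ}
    {f : Fin 2 → (R → ℝ)} {v : Fin 3 → (R → ℝ)} {κ : Fin 5 → R} (h : Ctx S t f v κ) (w : R → ℝ)
    (h1 : ∀ q : Fin 4 → (R → ℝ), (∀ j, q j ∈ QV f v) →
      |mn κ (Fin.cons w q : Fin 5 → (R → ℝ))| ≤ 1)
    (h2 : ∀ q : Fin 4 → (R → ℝ), (∀ j, q j ∈ QV f v) →
      ∃ n : ℤ, 2 * mn κ (Fin.cons w q : Fin 5 → (R → ℝ)) = n) :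
    ∃ (X : Fin 2 → ℤ) (Y : Fin 3 → ℤ), Crd f v κ w (fun a => (X a : ℝ)) (fun k => (Y k : ℝ)) ∧
      (∀ k, (Y k).natAbs ≤ 1) ∧
      (∀ a i k, i ≠ k → (X a).natAbs + (Y i).natAbs + (Y k).natAbs ≤ 2) ∧
      ∃ n : ℤ, X 0 + X 1 + Y 0 + Y 1 + Y 2 = 2 * n := by
  obtain ⟨ξ, η, hc, -⟩ := hC R f v κ h.det w
  obtain ⟨i1, i2⟩ := hA R S t f v κ h w ξ η hc h1
  obtain ⟨j1, j2, n, j3⟩ := hB R S t f v κ h w ξ η hc h2
  choose X hX using j1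
  choose Y hY using j2
  have hX' : ξ = fun a => (X a : ℝ) := funext hX
  have hY' : η = fun k => (Y k : ℝ) := funext hY
  subst hX' hY'
  dsimp only at i1 i2 j3
  refine ⟨X, Y, hc, ?_, ?_, n, by exact_mod_cast j3⟩
  · intro k
    have h3 := i1 k
    have h4 : |Y k| ≤ 1 := by exact_mod_cast h3
    rw [Int.abs_eq_natAbs] at h4
    omega
  · intro a i k hik
    have h3 := i2 a i k hik
    have h4 : |X a| + |Y i| + |Y k| ≤ 2 := by exact_mod_cast h3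
    rw [Int.abs_eq_natAbs, Int.abs_eq_natAbs, Int.abs_eq_natAbs] at h4
    omega

theorem tri {y : ℤ} (h : y.natAbs ≤ 1) : y = 0 ∨ y = 1 ∨ y = -1 := by omega

theorem comb1 (x0 x1 y0 y1 y2 p q : ℤ) (b0 : y0.natAbs ≤ 1) (b1 : y1.natAbs ≤ 1)
    (b2 : y2.natAbs ≤ 1) (c01 : x0.natAbs + y0.natAbs + y1.natAbs ≤ 2)
    (c02 : x0.natAbs + y0.natAbs + y2.natAbs ≤ 2) (c12 : x0.natAbs + y1.natAbs + y2.natAbs ≤ 2)
    (d01 : x1.natAbs + y0.natAbs + y1.natAbs ≤ 2)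
    (d02 : x1.natAbs + y0.natAbs + y2.natAbs ≤ 2) (d12 : x1.natAbs + y1.natAbs + y2.natAbs ≤ 2)
    (hp : x0 + x1 = 2 * p + 1) (hq : y0 + y1 + y2 = 2 * q + 1) :
    (((x0 = 1 ∨ x0 = -1) ∧ x1 = 0) ∨ ((x1 = 1 ∨ x1 = -1) ∧ x0 = 0)) ∧
    (((y0 = 1 ∨ y0 = -1) ∧ y1 = 0 ∧ y2 = 0) ∨ ((y1 = 1 ∨ y1 = -1) ∧ y0 = 0 ∧ y2 = 0) ∨
      ((y2 = 1 ∨ y2 = -1) ∧ y0 = 0 ∧ y1 = 0)) := by
  have z0 : y0.natAbs = 0 → y0 = 0 := Int.natAbs_eq_zero.1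
  have z1 : y1.natAbs = 0 → y1 = 0 := Int.natAbs_eq_zero.1
  have z2 : y2.natAbs = 0 → y2 = 0 := Int.natAbs_eq_zero.1
  have e0 : x0.natAbs ≤ 1 := by
    by_contra hc
    have a0 := z0 (by omega)
    have a1 := z1 (by omega)
    have a2 := z2 (by omega)
    subst a0 a1 a2
    clear z0 z1 z2 b0 b1 b2 c01 c02 c12 d01 d02 d12 hc hp
    omega
  have e1 : x1.natAbs ≤ 1 := by
    by_contra hc
    have a0 := z0 (by omega)
    have a1 := z1 (by omega)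
    have a2 := z2 (by omega)
    subst a0 a1 a2
    clear z0 z1 z2 b0 b1 b2 c01 c02 c12 d01 d02 d12 hc hp
    omega
  clear z0 z1 z2
  rcases tri b0 with rfl | rfl | rfl <;> rcases tri b1 with rfl | rfl | rfl <;>
    rcases tri b2 with rfl | rfl | rfl <;> rcases tri e0 with rfl | rfl | rfl <;>
    rcases tri e1 with rfl | rfl | rfl <;> clear b0 b1 b2 e0 e1 <;>
    first | (exfalso; omega) | simp

theorem comb2 (x0 x1 y0 y1 y2 p q : ℤ) (b0 : y0.natAbs ≤ 1) (b1 : y1.natAbs ≤ 1)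
    (b2 : y2.natAbs ≤ 1) (c01 : x0.natAbs + y0.natAbs + y1.natAbs ≤ 2)
    (c02 : x0.natAbs + y0.natAbs + y2.natAbs ≤ 2) (c12 : x0.natAbs + y1.natAbs + y2.natAbs ≤ 2)
    (d01 : x1.natAbs + y0.natAbs + y1.natAbs ≤ 2)
    (d02 : x1.natAbs + y0.natAbs + y2.natAbs ≤ 2) (d12 : x1.natAbs + y1.natAbs + y2.natAbs ≤ 2)
    (hp : x0 + x1 = 2 * p) (hq : y0 + y1 + y2 = 2 * q) (hz : ¬ (y0 = 0 ∧ y1 = 0 ∧ y2 = 0)) :
    x0 = 0 ∧ x1 = 0 ∧ ((y0 = 0 ∧ (y1 = 1 ∨ y1 = -1) ∧ (y2 = 1 ∨ y2 = -1)) ∨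
      (y1 = 0 ∧ (y0 = 1 ∨ y0 = -1) ∧ (y2 = 1 ∨ y2 = -1)) ∨
      (y2 = 0 ∧ (y0 = 1 ∨ y0 = -1) ∧ (y1 = 1 ∨ y1 = -1))) := by
  have z0 : y0.natAbs = 0 → y0 = 0 := Int.natAbs_eq_zero.1
  have z1 : y1.natAbs = 0 → y1 = 0 := Int.natAbs_eq_zero.1
  have z2 : y2.natAbs = 0 → y2 = 0 := Int.natAbs_eq_zero.1
  have e0 : x0.natAbs ≤ 1 := by
    by_contra hc
    exact hz ⟨z0 (by omega), z1 (by omega), z2 (by omega)⟩
  have e1 : x1.natAbs ≤ 1 := by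
    by_contra hc
    exact hz ⟨z0 (by omega), z1 (by omega), z2 (by omega)⟩
  clear z0 z1 z2
  rcases tri b0 with rfl | rfl | rfl <;> rcases tri b1 with rfl | rfl | rfl <;>
    rcases tri b2 with rfl | rfl | rfl <;> rcases tri e0 with rfl | rfl | rfl <;>
    rcases tri e1 with rfl | rfl | rfl <;> clear b0 b1 b2 e0 e1 <;>
    first | (exfalso; omega) | simp

theorem qv_mem {R : Type} {S : Set (R → ℝ)} {t : R → ℝ} {f : Fin 2 → (R → ℝ)}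
    {v : Fin 3 → (R → ℝ)} {κ : Fin 5 → R} (h : Ctx S t f v κ) {x : R → ℝ} (hx : x ∈ QV f v) :
    x ∈ S := by
  obtain ⟨a, k, σ, τ, hσ, hτ, rfl⟩ := hx
  exact h.qs a k σ τ hσ hτ

theorem ab3 (hH : S_HALF) (hC : S_CRD) (hA : S_AB2A) (hB : S_AB2B) : S_AB3 := by
  intro R S t f v κ h x hx
  have hmem : ∀ q : Fin 4 → (R → ℝ), (∀ j, q j ∈ QV f v) →
      ∀ j, (Fin.cons x q : Fin 5 → (R → ℝ)) j ∈ S := by
    intro q hq j
    refine Fin.cases ?_ (fun j => ?_) j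
    · exact hx
    · exact qv_mem h (hq j)
  obtain ⟨X, Y, hc, h1, h2, n, h3⟩ := coord hC hA hB h x
    (fun q hq => h.ts 5 κ _ (hmem q hq)) (fun q hq => hH R S t h.co 5 κ _ (hmem q hq))
  obtain ⟨a, ha⟩ := h.half
  obtain ⟨l, hl⟩ := h.co.2 x hx (κ a)
  have hp := par h x X Y hc a ha (1 + 2 * l) (by rw [hl, ha]; push_cast; ring)
  have hp' : (∃ n, X 0 + X 1 = 2 * n + 1) ∧ (∃ n, Y 0 + Y 1 + Y 2 = 2 * n + 1) := by
    rcases hp with ⟨n', hp⟩ | ⟨n', hp⟩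
    · exact ⟨⟨l - n', by omega⟩, ⟨n - (l - n') - 1, by omega⟩⟩
    · exact ⟨⟨n - (l - n') - 1, by omega⟩, ⟨l - n', by omega⟩⟩
  obtain ⟨⟨p, hp⟩, ⟨q, hq⟩⟩ := hp'
  have b0 := h1 0
  have b1 := h1 1
  have b2 := h1 2
  have c01 := h2 0 0 1 (by decide)
  have c02 := h2 0 0 2 (by decide)
  have c12 := h2 0 1 2 (by decide)
  have d01 := h2 1 0 1 (by decide)
  have d02 := h2 1 0 2 (by decide)
  have d12 := h2 1 1 2 (by decide)
  obtain ⟨hX, hY⟩ := comb1 _ _ _ _ _ _ _ b0 b1 b2 c01 c02 c12 d01 d02 d12 hp hq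
  have key : ∀ b, x (κ b) = (X 0 : ℝ) * f 0 (κ b) + (X 1 : ℝ) * f 1 (κ b) +
      ((Y 0 : ℝ) * v 0 (κ b) + (Y 1 : ℝ) * v 1 (κ b) + (Y 2 : ℝ) * v 2 (κ b)) := by
    intro b
    have := hc b
    simp only [Fin.sum_univ_two, Fin.sum_univ_three] at this
    exact this
  rcases hX with ⟨hX1, hX2⟩ | ⟨hX1, hX2⟩
  · rcases hY with ⟨hY1, hY2, hY3⟩ | ⟨hY1, hY2, hY3⟩ | ⟨hY1, hY2, hY3⟩
    · refine ⟨0, X 0, 0, Y 0, hX1, hY1, fun b => ?_⟩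
      rw [key b, hX2, hY2, hY3]
      simp
    · refine ⟨0, X 0, 1, Y 1, hX1, hY1, fun b => ?_⟩
      rw [key b, hX2, hY2, hY3]
      simp
    · refine ⟨0, X 0, 2, Y 2, hX1, hY1, fun b => ?_⟩
      rw [key b, hX2, hY2, hY3]
      simp
  · rcases hY with ⟨hY1, hY2, hY3⟩ | ⟨hY1, hY2, hY3⟩ | ⟨hY1, hY2, hY3⟩
    · refine ⟨1, X 1, 0, Y 0, hX1, hY1, fun b => ?_⟩
      rw [key b, hX2, hY2, hY3]
      simp
    · refine ⟨1, X 1, 1, Y 1, hX1, hY1, fun b => ?_⟩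
      rw [key b, hX2, hY2, hY3]
      simp
    · refine ⟨1, X 1, 2, Y 2, hX1, hY1, fun b => ?_⟩
      rw [key b, hX2, hY2, hY3]
      simp

theorem mn_cons {R : Type} (κ : Fin 5 → R) (a0 : Fin 5) (e : R → ℝ)
    (he : ∀ b, e (κ b) = if b = a0 then 1 else 0) (q : Fin 4 → (R → ℝ)) :
    mn κ (Fin.cons e q : Fin 5 → (R → ℝ)) = (-1) ^ (a0 : ℕ) * mn (κ ∘ a0.succAbove) q := by
  unfold mn
  rw [Matrix.det_succ_column_zero, Finset.sum_eq_single a0]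
  · congr 1
    rw [Matrix.of_apply, Fin.cons_zero, he, if_pos rfl, mul_one]
  · intro b _ hb
    rw [Matrix.of_apply, Fin.cons_zero, he, if_neg hb]
    ring
  · intro h
    exact absurd (Finset.mem_univ _) h

theorem abe (hH : S_HALF) (hC : S_CRD) (hA : S_AB2A) (hB : S_AB2B) : S_ABE := by
  classical
  intro R S t f v κ h a0
  have hinj : Function.Injective κ := by
    intro i j hij
    by_contra hne
    exact h.det (Matrix.det_zero_of_row_eq hne (by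
      funext b
      rw [Matrix.of_apply, Matrix.of_apply, hij]))
  obtain ⟨e, he⟩ : ∃ e : R → ℝ, ∀ b, e (κ b) = if b = a0 then 1 else 0 :=
    ⟨fun r => if r = κ a0 then 1 else 0, fun b => by
      dsimp only
      by_cases hb : b = a0
      · rw [if_pos hb, if_pos (congrArg κ hb)]
      · rw [if_neg hb, if_neg (fun h' => hb (hinj h'))]⟩
  have hsgn : ∀ n : ℕ, ((-1 : ℝ)) ^ n = 1 ∨ ((-1 : ℝ)) ^ n = -1 := neg_one_pow_eq_or ℝ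
  obtain ⟨X, Y, hc, h1, h2, n, h3⟩ := coord hC hA hB h e
    (fun q hq => by
      rw [mn_cons κ a0 e he q, abs_mul, abs_pow, abs_neg, abs_one, one_pow, one_mul]
      exact h.ts 4 _ _ (fun j => qv_mem h (hq j)))
    (fun q hq => by
      rw [mn_cons κ a0 e he q]
      obtain ⟨n, hn⟩ := hH R S t h.co 4 (κ ∘ a0.succAbove) q (fun j => qv_mem h (hq j))
      rcases hsgn a0 with hs | hs
      · exact ⟨n, by rw [hs, one_mul, hn]⟩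
      · refine ⟨-n, ?_⟩
        rw [hs]
        push_cast
        linarith)
  obtain ⟨a, ha⟩ := h.half
  obtain ⟨l, hl⟩ : ∃ l : ℤ, e (κ a) = l := by
    rw [he]
    by_cases hb : a = a0
    · exact ⟨1, by rw [if_pos hb]; simp⟩
    · exact ⟨0, by rw [if_neg hb]; simp⟩
  have hp := par h e X Y hc a ha (2 * l) (by rw [hl]; push_cast; ring)
  have hp' : (∃ n, X 0 + X 1 = 2 * n) ∧ (∃ n, Y 0 + Y 1 + Y 2 = 2 * n) := by
    rcases hp with ⟨n', hp⟩ | ⟨n', hp⟩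
    · exact ⟨⟨l - n', by omega⟩, ⟨n - (l - n'), by omega⟩⟩
    · exact ⟨⟨n - (l - n'), by omega⟩, ⟨l - n', by omega⟩⟩
  obtain ⟨⟨p, hp⟩, ⟨q, hq⟩⟩ := hp'
  refine ⟨X, Y, fun b => ?_, ?_⟩
  · rw [← he b]
    exact hc b
  have b0 := h1 0
  have b1 := h1 1
  have b2 := h1 2
  have c01 := h2 0 0 1 (by decide)
  have c02 := h2 0 0 2 (by decide)
  have c12 := h2 0 1 2 (by decide)
  have d01 := h2 1 0 1 (by decide)
  have d02 := h2 1 0 2 (by decide)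
  have d12 := h2 1 1 2 (by decide)
  by_cases hz : Y 0 = 0 ∧ Y 1 = 0 ∧ Y 2 = 0
  · left
    intro k
    fin_cases k
    exacts [hz.1, hz.2.1, hz.2.2]
  · right
    obtain ⟨hX0, hX1, hY⟩ := comb2 _ _ _ _ _ _ _ b0 b1 b2 c01 c02 c12 d01 d02 d12 hp hq hz
    refine ⟨fun a => by fin_cases a; exacts [hX0, hX1], ?_⟩
    rcases hY with ⟨i1, i2, i3⟩ | ⟨i1, i2, i3⟩ | ⟨i1, i2, i3⟩
    · refine ⟨0, i1, fun k hk => ?_⟩
      fin_cases k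
      exacts [absurd rfl hk, i2, i3]
    · refine ⟨1, i1, fun k hk => ?_⟩
      fin_cases k
      exacts [i2, absurd rfl hk, i3]
    · refine ⟨2, i1, fun k hk => ?_⟩
      fin_cases k
      exacts [i2, i3, absurd rfl hk]

end Pool.Agent.W557.SH
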